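import Pool.Agent.SZG.StmtsM

/-!
# Squad SZG, row RCG: relative congruences form a group
-/

set_option autoImplicit false

namespace Pool.Agent.SZG.H26

open Pool.Agent.SZG

section
variable {K : Type} [Field K] {v : AbsoluteValue K ℝ} {θ : ℝ}

theorem rcg_one (hna : IsNonarchimedean v) (h1 : θ < 1) {x : K} (h : v (x - 1) ≤ θ) : v x = 1 := by
  apply le_antisymm
  · have h2 := hna (x - 1) 1
    rw [sub_add_cancel, v.map_one] at h2
    exact h2.trans (max_le (h.trans h1.le) le_rfl)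
  · have h2 := hna x (-(x - 1))
    have e : x + -(x - 1) = 1 := by ring
    rw [e, v.map_one, v.map_neg] at h2
    rcases le_max_iff.mp h2 with h3 | h3
    · exact h3
    · linarith

theorem rcg_mul (hna : IsNonarchimedean v) (h1 : θ < 1) {x y : K} (hx : v (x - 1) ≤ θ)
    (hy : v (y - 1) ≤ θ) : v (x * y - 1) ≤ θ := by
  have e : x * y - 1 = (x - 1) * y + (y - 1) := by ring
  rw [e]
  refine (hna _ _).trans (max_le ?_ hy)
  rw [v.map_mul, rcg_one hna h1 hy, mul_one]
  exact hx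

theorem rcg_inv (hna : IsNonarchimedean v) (h1 : θ < 1) {x : K} (hx : v (x - 1) ≤ θ) :
    v (x⁻¹ - 1) ≤ θ := by
  have h2 := rcg_one hna h1 hx
  have hx0 : x ≠ 0 := by
    intro h
    rw [h, v.map_zero] at h2
    norm_num at h2
  have e : x⁻¹ - 1 = -((x - 1) * x⁻¹) := by
    field_simp
    ring
  rw [e, v.map_neg, v.map_mul, map_inv₀, h2, inv_one, mul_one]
  exact hx

theorem rcg_pow (hna : IsNonarchimedean v) (h0 : 0 ≤ θ) (h1 : θ < 1) {x : K} (hx : v (x - 1) ≤ θ)
    (n : ℕ) : v (x ^ n - 1) ≤ θ := by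
  induction n with
  | zero => simpa using h0
  | succ n ih =>
    rw [pow_succ]
    exact rcg_mul hna h1 ih hx

end

/-- RCG -/
theorem rcg : RcgStmt := by
  intro K _ v θ hna h0 h1
  refine ⟨fun x hx => ⟨rcg_one hna h1 hx, rcg_inv hna h1 hx⟩, fun x y hx hy => rcg_mul hna h1 hx hy,
    ?_⟩
  intro x n hx
  obtain ⟨m, rfl | rfl⟩ := n.eq_nat_or_neg
  · rw [zpow_natCast]
    exact rcg_pow hna h0 h1 hx m
  · rw [zpow_neg, zpow_natCast]
    exact rcg_inv hna h1 (rcg_pow hna h0 h1 hx m)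

end Pool.Agent.SZG.H26
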